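import Pool.Agent.Lib.MP_064b94_an.Main

namespace Pool.Agent.Results.MP_064b94_an.Counterexample

open Pool.Agent.Lib.MP_064b94_an

theorem result (𝕜 : Type) [RCLike 𝕜] :
    ∃ (X : Type) (_ : NormedAddCommGroup X) (_ : NormedSpace 𝕜 X),
      CompleteSpace X ∧ WCG 𝕜 (StrongDual 𝕜 (StrongDual 𝕜 X)) ∧ ¬ WCG 𝕜 X :=
  main 𝕜

end Pool.Agent.Results.MP_064b94_an.Counterexample
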